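import Pool.Agent.L7h96.UC.Inv

/-! Project UC (MP_1e2081_pr, Q2): part SWP. -/

set_option autoImplicit false

namespace Pool.Agent.L7h96.UC

open Finset Pool.Agent.L7h38.UC

/-- recolouring one ball -/
theorem mf_update {n d : ℕ} (f : Fin n → Fin d) (p : Fin n) (b : Fin d) (T : Finset (Fin n))
    (j : Fin d) : mf (Function.update f p b) T j = mf f T j -
      (if p ∈ T then ((if j = f p then 1 else 0) - (if j = b then 1 else 0)) else 0) := by
  unfold mf
  simp only [Finset.card_filter]
  push_cast
  by_cases hp : p ∈ T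
  · rw [if_pos hp, ← Finset.add_sum_erase T _ hp, ← Finset.add_sum_erase T _ hp]
    have h1 : ∑ x ∈ T.erase p, (if Function.update f p b x = j then (1 : ℤ) else 0) =
        ∑ x ∈ T.erase p, (if f x = j then (1 : ℤ) else 0) := by
      apply Finset.sum_congr rfl
      intro x hx
      rw [Function.update_of_ne (Finset.ne_of_mem_erase hx)]
    rw [h1, Function.update_self]
    simp only [eq_comm (a := j)]
    ring
  · rw [if_neg hp, sub_zero]
    apply Finset.sum_congr rfl
    intro x hx
    rw [Function.update_of_ne]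
    rintro rfl
    exact hp hx

/-- the exchange of two balls -/
def exch {d n : ℕ} (c : Cf d n) (i i' : Fin d) (p p' : Fin n) (a b : Fin d) : Cf d n := fun x =>
  if x = i then Function.update (c i) p b else if x = i' then Function.update (c i') p' a else c x

theorem mf_exch {d n : ℕ} (c : Cf d n) (i i' a b : Fin d) (hi : i ≠ i') (p p' : Fin n)
    (hp : c i p = a) (hp' : c i' p' = b) (T : Finset (Fin n)) (x j : Fin d) :
    mf (exch c i i' p p' a b x) T j = mf (c x) T j -
      ((if j = a then 1 else 0) - (if j = b then 1 else 0)) *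
      ((if x = i then (if p ∈ T then 1 else 0) else 0) -
        (if x = i' then (if p' ∈ T then 1 else 0) else 0)) := by
  unfold exch
  by_cases h1 : x = i
  · subst h1
    rw [if_pos rfl, if_pos rfl, if_neg hi, mf_update, hp]
    split_ifs <;> ring
  · rw [if_neg h1, if_neg h1]
    by_cases h2 : x = i'
    · subst h2
      rw [if_pos rfl, if_pos rfl, mf_update, hp']
      split_ifs <;> ring
    · rw [if_neg h2, if_neg h2]
      ring

theorem cn_exch {d n : ℕ} (c : Cf d n) (i i' a b : Fin d) (hi : i ≠ i') (p p' : Fin n)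
    (hp : c i p = a) (hp' : c i' p' = b) : cn (exch c i i' p p' a b) = shift (cn c) a b i i' := by
  funext x j
  rw [cn_eq, mf_exch c i i' a b hi p p' hp hp']
  unfold shift
  rw [cn_eq]
  simp only [Finset.mem_univ, if_true]

theorem nx_exch {d n : ℕ} (σ : Equiv.Perm (Fin d)) (c : Cf d n) (i i' a b : Fin d) (hi : i ≠ i')
    (p p' : Fin n) (hp : c i p = a) (hp' : c i' p' = b) (S : Fin d → Finset (Fin n)) :
    nx σ (exch c i i' p p' a b) S = shift (nx σ c S) a b (if p ∈ S i then σ i else i)
      (if p' ∈ S i' then σ i' else i') := by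
  funext x j
  unfold nx
  rw [mf_exch c i i' a b hi p p' hp hp', mf_exch c i i' a b hi p p' hp hp',
    cn_exch c i i' a b hi p p' hp hp']
  unfold shift
  have e1 : (σ⁻¹ x = i) ↔ (x = σ i) := by
    constructor
    · rintro rfl; simp
    · rintro rfl; simp
  have e2 : (σ⁻¹ x = i') ↔ (x = σ i') := by
    constructor
    · rintro rfl; simp
    · rintro rfl; simp
  have f1 : (if x = i then (if p ∈ S x then (1 : ℤ) else 0) else 0) =
      (if x = i then (if p ∈ S i then (1 : ℤ) else 0) else 0) := by
    by_cases h : x = i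
    · rw [h]
    · rw [if_neg h, if_neg h]
  have f2 : (if x = i' then (if p' ∈ S x then (1 : ℤ) else 0) else 0) =
      (if x = i' then (if p' ∈ S i' then (1 : ℤ) else 0) else 0) := by
    by_cases h : x = i'
    · rw [h]
    · rw [if_neg h, if_neg h]
  have f3 : (if σ⁻¹ x = i then (if p ∈ S (σ⁻¹ x) then (1 : ℤ) else 0) else 0) =
      (if x = σ i then (if p ∈ S i then (1 : ℤ) else 0) else 0) := by
    by_cases h : x = σ i
    · rw [if_pos h, if_pos (e1.2 h), e1.2 h]
    · rw [if_neg h, if_neg (fun hh => h (e1.1 hh))]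
  have f4 : (if σ⁻¹ x = i' then (if p' ∈ S (σ⁻¹ x) then (1 : ℤ) else 0) else 0) =
      (if x = σ i' then (if p' ∈ S i' then (1 : ℤ) else 0) else 0) := by
    by_cases h : x = σ i'
    · rw [if_pos h, if_pos (e2.2 h), e2.2 h]
    · rw [if_neg h, if_neg (fun hh => h (e2.1 hh))]
  rw [f1, f2, f3, f4]
  by_cases g1 : p ∈ S i <;> by_cases g2 : p' ∈ S i' <;>
    simp only [g1, g2, if_true, if_false, ite_self] <;> ring

theorem s_SWP (hI : S_INV) : S_SWP := by
  intro d n c c' i i' a b hi hab hc
  have hp : ∃ p : Fin n, c i p = a := by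
    by_contra hno
    push Not at hno
    have h0 : cn c i a = 0 := by
      unfold cn
      rw [Finset.filter_false_of_mem (fun p _ => hno p)]
      rfl
    have h1 := congrFun (congrFun hc i) a
    unfold shift at h1
    rw [h0, if_pos rfl, if_neg hab, if_pos rfl, if_neg hi] at h1
    have h2 : (0 : ℤ) ≤ cn c' i a := by unfold cn; positivity
    omega
  have hp' : ∃ p : Fin n, c i' p = b := by
    by_contra hno
    push Not at hno
    have h0 : cn c i' b = 0 := by
      unfold cn
      rw [Finset.filter_false_of_mem (fun p _ => hno p)]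
      rfl
    have h1 := congrFun (congrFun hc i') b
    unfold shift at h1
    rw [h0, if_neg (Ne.symm hab), if_pos rfl, if_neg (Ne.symm hi), if_pos rfl] at h1
    have h2 : (0 : ℤ) ≤ cn c' i' b := by unfold cn; positivity
    omega
  obtain ⟨p, hp⟩ := hp
  obtain ⟨p', hp'⟩ := hp'
  refine ⟨p, p', hp, hp', ?_⟩
  intro k σ F
  have h3 : cn c' = cn (exch c i i' p p' a b) := by
    rw [hc, cn_exch c i i' a b hi p p' hp hp']
  rw [hI d n k σ F c' _ h3]
  unfold PL
  congr 1
  funext S
  rw [nx_exch σ c i i' a b hi p p' hp hp']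

end Pool.Agent.L7h96.UC
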