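import Pool.Agent.L7h38.UC.Stm2

/-! Project UC (MP_1e2081_pr, Q2): part FINC, the counterexample `k n = n / 2`, `d = 2`. -/

set_option autoImplicit false

namespace Pool.Agent.L7h96.UC

open Finset Filter Topology Pool.Agent.L7h38.UC

theorem pr_mu2 : Pr mu2 := by
  constructor
  · intro σ
    unfold mu2
    split_ifs <;> norm_num
  · unfold mu2
    rw [Finset.sum_ite_eq' Finset.univ (Equiv.swap (0 : Fin 2) 1) (fun _ => (1 : ℝ))]
    simp

theorem pois_nonneg {t : ℝ} (ht : 0 ≤ t) (N : ℕ) : 0 ≤ pois t N := by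
  unfold pois
  positivity

theorem pois_summable (t : ℝ) : Summable (pois t) := by
  have h := (Real.summable_pow_div_factorial t).mul_left (Real.exp (-t))
  refine h.congr fun N => ?_
  unfold pois
  rw [mul_div_assoc]

theorem pois_tendsto (N : ℕ) : Tendsto (fun t : ℝ => pois t N) atTop (𝓝 0) := by
  have h := Real.tendsto_pow_mul_exp_neg_atTop_nhds_zero N
  have h2 := h.div_const (N.factorial : ℝ)
  rw [zero_div] at h2
  refine h2.congr fun t => ?_
  unfold pois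
  ring

theorem ring_nonneg {d n : ℕ} {μ : Equiv.Perm (Fin d) → ℝ} (hμ : Pr μ) (k : ℕ) (A B : St d n) :
    0 ≤ ring μ k A B := by
  unfold ring
  apply Finset.sum_nonneg
  intro σ _
  have := hμ.1 σ
  positivity

theorem pow_nonneg' {d n : ℕ} {μ : Equiv.Perm (Fin d) → ℝ} (hμ : Pr μ) (k N : ℕ) :
    ∀ A B : St d n, 0 ≤ (Matrix.of (ring μ k) ^ N) A B := by
  induction N with
  | zero =>
    intro A B
    rw [pow_zero, Matrix.one_apply]
    split_ifs <;> norm_num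
  | succ N ih =>
    intro A B
    rw [pow_succ, Matrix.mul_apply]
    apply Finset.sum_nonneg
    intro C _
    exact mul_nonneg (ih A C) (ring_nonneg hμ k C B)

theorem pow_le_one' {d n : ℕ} {μ : Equiv.Perm (Fin d) → ℝ} (hμ : Pr μ) (k N : ℕ) (hk : k ≤ n)
    (hP : S_PNR) (hR : S_REP) (hB : S_BRI) (A B : St d n) :
    (Matrix.of (ring μ k) ^ N) A B ≤ 1 := by
  obtain ⟨c, hc, hcA⟩ := (hR d n).1 A
  have h1 := hB d n k μ N (fun _ => 1) A
  rw [← hcA, hP.2.2.2.1 d n k μ hμ hk N 1 c] at h1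
  rw [← h1]
  have h2 := Finset.single_le_sum (f := fun B => (Matrix.of (ring μ k) ^ N) A B * 1)
    (fun B _ => mul_nonneg (pow_nonneg' hμ k N A B) zero_le_one) (Finset.mem_univ B)
  simpa using h2

/-- no ring with probability `exp (- t)` -/
theorem law_ge {d n : ℕ} {μ : Equiv.Perm (Fin d) → ℝ} (hμ : Pr μ) (k : ℕ) (hk : k ≤ n)
    (hP : S_PNR) (hR : S_REP) (hB : S_BRI) (A : St d n) (t : ℝ) (ht : 0 ≤ t) :
    Real.exp (-t) ≤ law μ k t A A := by
  unfold law
  have hnn : ∀ N : ℕ, 0 ≤ Real.exp (-t) * t ^ N / (N.factorial : ℝ) *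
      (Matrix.of (ring μ k) ^ N) A A := fun N =>
    mul_nonneg (pois_nonneg ht N) (pow_nonneg' hμ k N A A)
  have hs : Summable (fun N : ℕ => Real.exp (-t) * t ^ N / (N.factorial : ℝ) *
      (Matrix.of (ring μ k) ^ N) A A) := by
    refine Summable.of_nonneg_of_le hnn (fun N => ?_) (pois_summable t)
    have h1 := pow_le_one' hμ k N hk hP hR hB A A
    have h2 := pois_nonneg ht N
    unfold pois at h2 ⊢
    exact mul_le_of_le_one_right h2 h1
  have h0 := hs.le_tsum 0 (fun N _ => hnn N)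
  simpa using h0

theorem dn_ge {d n : ℕ} (μ : Equiv.Perm (Fin d) → ℝ) (k : ℕ) (π : St d n → ℝ) (t : ℝ) (A : St d n) :
    (1 / 2) * (law μ k t A A - π A) ≤ dn μ k π t := by
  have h1 : (1 / 2) * ∑ B, |law μ k t A B - π B| ≤ dn μ k π t :=
    le_ciSup (f := fun A : St d n => (1 / 2) * ∑ B, |law μ k t A B - π B|)
      (Set.finite_range _).bddAbove A
  have h2 : |law μ k t A A - π A| ≤ ∑ B, |law μ k t A B - π B| :=
    Finset.single_le_sum (f := fun B => |law μ k t A B - π B|) (fun B _ => abs_nonneg _)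
      (Finset.mem_univ A)
  have h3 := le_abs_self (law μ k t A A - π A)
  linarith

/-- `n + 1` different states of two urns -/
def stt (n : ℕ) (a : Fin (n + 1)) : St 2 n :=
  ⟨fun i j => if i = j then a else ⟨n - a, by omega⟩, by
    have ha := a.2
    constructor
    · intro i
      rw [Fin.sum_univ_two]
      fin_cases i <;> simp <;> omega
    · intro j
      rw [Fin.sum_univ_two]
      fin_cases j <;> simp <;> omega⟩

theorem stt_inj (n : ℕ) : Function.Injective (stt n) := by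
  intro a b h
  have h1 := congrArg (fun A : St 2 n => A.1 0 0) h
  simpa [stt] using h1

theorem small_state (n : ℕ) (π : St 2 n → ℝ) (h0 : ∀ A, 0 ≤ π A) (h1 : ∑ A, π A = 1) :
    ∃ A, π A ≤ 1 / (n + 1) := by
  by_contra hno
  push Not at hno
  have h2 : ∑ a : Fin (n + 1), π (stt n a) ≤ ∑ A, π A := by
    rw [← Finset.sum_image (s := (Finset.univ : Finset (Fin (n + 1)))) (g := stt n) (f := π)
      (fun a _ b _ h => stt_inj n h)]
    exact Finset.sum_le_sum_of_subset_of_nonneg (Finset.subset_univ _) (fun A _ _ => h0 A)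
  have h3 : ∑ a : Fin (n + 1), (1 / ((n : ℝ) + 1)) < ∑ a : Fin (n + 1), π (stt n a) :=
    Finset.sum_lt_sum_of_nonempty Finset.univ_nonempty (fun a _ => hno _)
  rw [Finset.sum_const, Finset.card_univ, Fintype.card_fin, nsmul_eq_mul] at h3
  have h4 : ((n + 1 : ℕ) : ℝ) * (1 / ((n : ℝ) + 1)) = 1 := by
    push_cast
    field_simp
  rw [h4] at h3
  rw [h1] at h2
  linarith

/-- bounded mixing times along even `n` -/
theorem bounded_dn (hC : S_CEX) (hI : S_ITR) (hU : S_CTU) (π : ∀ n : ℕ, St 2 n → ℝ)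
    (hπ : ∀ n, Stationary mu2 (n / 2) (π n)) (ε : ℝ) (hε : 0 < ε) :
    ∃ (T : ℝ) (m0 : ℕ), 0 ≤ T ∧ ∀ m : ℕ, m0 ≤ m → dn mu2 (2 * m / 2) (π (2 * m)) T ≤ ε := by
  obtain ⟨δ, m0, hδ, hδ1, hM⟩ := hC
  obtain ⟨N, hN⟩ : ∃ N : ℕ, (1 - δ) ^ N < ε / 2 :=
    exists_pow_lt_of_lt_one (by linarith) (by linarith)
  have ht : Tendsto (fun t : ℝ => ∑ j ∈ range (2 * N), pois t j) atTop (𝓝 0) := by
    have := tendsto_finsetSum (range (2 * N)) (fun j _ => pois_tendsto j)
    simpa using this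
  obtain ⟨T, hT⟩ := ((ht.eventually (gt_mem_nhds (by linarith : (0 : ℝ) < ε / 2))).and
    (eventually_ge_atTop 0)).exists
  refine ⟨T, m0, hT.2, fun m hm => ?_⟩
  have h1 : 2 * m / 2 = m := by omega
  have h2 := hI 2 (2 * m) m mu2 pr_mu2 (by omega) 2 (1 - δ) (by linarith) (hM m hm) N
  have h3 := hπ (2 * m)
  rw [h1] at h3 ⊢
  have h4 := hU 2 (2 * m) m mu2 pr_mu2 (by omega) (2 * N) _ h2 (π (2 * m)) h3 T hT.2
  have h5 : 2 * (1 - δ) ^ N / 2 = (1 - δ) ^ N := by ring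
  rw [h5] at h4
  linarith [hT.1]

theorem tmix_le {d n : ℕ} (μ : Equiv.Perm (Fin d) → ℝ) (k : ℕ) (π : St d n → ℝ) (ε T : ℝ)
    (hT : 0 ≤ T) (h : dn μ k π T ≤ ε) : tmix μ k π ε ≤ T :=
  csInf_le ⟨0, fun _ ht => ht.1⟩ ⟨hT, h⟩

theorem s_FINC (hC : S_CEX) (hI : S_ITR) (hU : S_CTU) (hP : S_PNR) (hR : S_REP) (hB : S_BRI) :
    S_FINC := by
  intro π hπ
  refine ⟨?_, ?_⟩
  · intro ε hε
    obtain ⟨T, m0, hT, h⟩ := bounded_dn hC hI hU π hπ ε hε
    exact ⟨T, m0, fun m hm => tmix_le _ _ _ _ _ hT (h m hm)⟩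
  · intro hcut
    obtain ⟨T0, m0, hT0, h0⟩ := bounded_dn hC hI hU π hπ (1 / 2) (by norm_num)
    -- the small level
    obtain ⟨ε, hε⟩ : ∃ ε, ε = Real.exp (-(2 * (T0 + 1))) / 3 := ⟨_, rfl⟩
    have hεpos : 0 < ε := by rw [hε]; positivity
    have hεlt : ε < 1 / 2 := by
      have : Real.exp (-(2 * (T0 + 1))) < 1 := by
        rw [Real.exp_lt_one_iff]
        linarith
      rw [hε]
      linarith
    obtain ⟨T1, m1, hT1, h1⟩ := bounded_dn hC hI hU π hπ ε hεpos
    have hc := hcut ε hεpos (by linarith)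
    have hc2 : Tendsto (fun m : ℕ => tmix mu2 (2 * m / 2) (π (2 * m)) ε /
        tmix mu2 (2 * m / 2) (π (2 * m)) (1 - ε)) atTop (𝓝 1) :=
      hc.comp (tendsto_id.const_mul_atTop' (by norm_num : (0 : ℕ) < 2))
    have hev := hc2.eventually (Ioo_mem_nhds (by norm_num : (1 / 2 : ℝ) < 1)
      (by norm_num : (1 : ℝ) < 3 / 2))
    obtain ⟨m2, hm2⟩ := exists_nat_gt (1 / ε)
    obtain ⟨m, ⟨hlo, hhi⟩, hm⟩ := (hev.and (eventually_ge_atTop (max (max m0 m1) m2))).exists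
    have hmm0 : m0 ≤ m := le_trans (le_trans (le_max_left _ _) (le_max_left _ _)) hm
    have hmm1 : m1 ≤ m := le_trans (le_trans (le_max_right _ _) (le_max_left _ _)) hm
    have hmm2 : m2 ≤ m := le_trans (le_max_right _ _) hm
    have hb : tmix mu2 (2 * m / 2) (π (2 * m)) (1 - ε) ≤ T0 :=
      tmix_le _ _ _ _ _ hT0 ((h0 m hmm0).trans (by linarith))
    have ha : 2 * (T0 + 1) ≤ tmix mu2 (2 * m / 2) (π (2 * m)) ε := by
      refine le_csInf (s := {t : ℝ | 0 ≤ t ∧ dn mu2 (2 * m / 2) (π (2 * m)) t ≤ ε})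
        ⟨T1, hT1, h1 m hmm1⟩ ?_
      rintro t ⟨ht, hdt⟩
      obtain ⟨A, hA⟩ := small_state (2 * m) (π (2 * m)) (hπ (2 * m)).1 (hπ (2 * m)).2.1
      have h2 := law_ge pr_mu2 (2 * m / 2) (by omega) hP hR hB A t ht
      have h3 := dn_ge mu2 (2 * m / 2) (π (2 * m)) t A
      have h4 : 1 / (((2 * m : ℕ) : ℝ) + 1) ≤ ε := by
        rw [div_le_iff₀ (by positivity)]
        have h5 : 1 / ε < m := hm2.trans_le (by exact_mod_cast hmm2)
        rw [div_lt_iff₀ hεpos] at h5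
        push_cast
        nlinarith
      have h6 : Real.exp (-t) ≤ 3 * ε := by linarith
      rw [hε] at h6
      have h7 : Real.exp (-t) ≤ Real.exp (-(2 * (T0 + 1))) := by linarith
      rw [Real.exp_le_exp] at h7
      linarith
    rcases lt_or_ge 0 (tmix mu2 (2 * m / 2) (π (2 * m)) (1 - ε)) with hpos | hneg
    · rw [div_lt_iff₀ hpos] at hhi
      linarith
    · have hnn : 0 ≤ tmix mu2 (2 * m / 2) (π (2 * m)) (1 - ε) :=
        Real.sInf_nonneg (fun t ht => ht.1)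
      have hz : tmix mu2 (2 * m / 2) (π (2 * m)) (1 - ε) = 0 := le_antisymm hneg hnn
      rw [hz, div_zero] at hlo
      norm_num at hlo

end Pool.Agent.L7h96.UC
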