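import Pool.Agent.L7h38.UC.Stm2
import Pool.Agent.L7h38.UC.Ew
import Pool.Agent.L7h96.UC.Finc

/-! Project UC (MP_1e2081_pr, Q2): part FINB, mixing times of order `log n`. -/

set_option autoImplicit false

namespace Pool.Agent.L7h96.UC

open Finset Filter Topology Pool.Agent.L7h38.UC

theorem nf2_ms {d : ℕ} (l : ℝ) (h0 : 0 ≤ l) (h1 : l ≤ 1) (σ : Equiv.Perm (Fin d))
    (B : Fin d → Fin d → ℝ) : (1 - 2 * l) ^ 2 * nf2 B ≤ nf2 (ms l σ B) := by
  have h2 : ∑ i, ∑ j, B (σ⁻¹ i) j ^ 2 = nf2 B :=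
    Equiv.sum_comp (σ⁻¹ : Equiv.Perm (Fin d)) (fun i => ∑ j, B i j ^ 2)
  have h3 : (1 - 2 * l) ^ 2 * nf2 B = ∑ i, ∑ j,
      ((1 - l) * (1 - 2 * l) * B i j ^ 2 + l * (2 * l - 1) * B (σ⁻¹ i) j ^ 2) := by
    simp only [Finset.sum_add_distrib, ← Finset.mul_sum]
    rw [h2]
    unfold nf2
    ring
  rw [h3]
  unfold nf2
  apply Finset.sum_le_sum
  intro i _
  apply Finset.sum_le_sum
  intro j _
  unfold ms
  have h4 : 0 ≤ l * (1 - l) * (B i j + B (σ⁻¹ i) j) ^ 2 := by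
    have : 0 ≤ 1 - l := by linarith
    positivity
  nlinarith

theorem nf2_mw {d : ℕ} (l : ℝ) (h0 : 0 ≤ l) (h1 : l ≤ 1) (w : List (Equiv.Perm (Fin d))) :
    ∀ B : Fin d → Fin d → ℝ, ((1 - 2 * l) ^ 2) ^ w.length * nf2 B ≤ nf2 (mw l w B) := by
  induction w with
  | nil =>
    intro B
    simp [mw]
  | cons σ w ih =>
    intro B
    have h2 := ih (ms l σ B)
    have h3 := nf2_ms l h0 h1 σ B
    have h4 : (0 : ℝ) ≤ ((1 - 2 * l) ^ 2) ^ w.length := by positivity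
    have h5 := mul_le_mul_of_nonneg_left h3 h4
    rw [List.length_cons, pow_succ]
    show ((1 - 2 * l) ^ 2) ^ w.length * (1 - 2 * l) ^ 2 * nf2 B ≤ nf2 (mw l w (ms l σ B))
    linarith

theorem nf2_Pi0 {d : ℕ} (hd : 2 ≤ d) : 1 ≤ nf2 (Pi0 d) := by
  have hd' : (2 : ℝ) ≤ d := by exact_mod_cast hd
  have h1 : ∀ i : Fin d, ∑ j, Pi0 d i j ^ 2 = 1 - 1 / d := by
    intro i
    have h2 : ∀ j, Pi0 d i j ^ 2 = (if i = j then 1 - 2 / (d : ℝ) else 0) + 1 / (d : ℝ) ^ 2 := by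
      intro j
      unfold Pi0
      split_ifs
      · field_simp
        ring
      · field_simp
        ring
    simp only [h2, Finset.sum_add_distrib, Finset.sum_ite_eq, Finset.mem_univ, if_true,
      Finset.sum_const, Finset.card_univ, Fintype.card_fin, nsmul_eq_mul]
    field_simp
    ring
  unfold nf2
  simp only [h1, Finset.sum_const, Finset.card_univ, Fintype.card_fin, nsmul_eq_mul]
  have h3 : (d : ℝ) * (1 - 1 / d) = d - 1 := by
    field_simp
  rw [h3]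
  linarith

/-- lower bound for the products -/
theorem fw_ge {d : ℕ} (hd : 2 ≤ d) (l c : ℝ) (h0 : 0 ≤ l) (h1 : l ≤ 1) (hc : 0 ≤ c)
    (hl : c ≤ |1 - 2 * l|) (w : List (Equiv.Perm (Fin d))) : c ^ w.length ≤ fw l w := by
  unfold fw
  apply Real.le_sqrt_of_sq_le
  have h2 := nf2_mw l h0 h1 w (Pi0 d)
  have h3 := nf2_Pi0 hd
  have h4 : c ^ 2 ≤ (1 - 2 * l) ^ 2 := by
    rw [← sq_abs (1 - 2 * l)]
    exact pow_le_pow_left₀ hc hl 2
  have h5 : (c ^ w.length) ^ 2 ≤ ((1 - 2 * l) ^ 2) ^ w.length := by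
    rw [← pow_mul, mul_comm, pow_mul]
    exact pow_le_pow_left₀ (by positivity) h4 _
  have h6 : (0 : ℝ) ≤ ((1 - 2 * l) ^ 2) ^ w.length := by positivity
  nlinarith

theorem cn_start {d n : ℕ} : cn (fun i _ => i : Cf d n) = fun i j => if i = j then (n : ℤ) else 0 := by
  funext i j
  unfold cn
  by_cases h : i = j
  · simp [h]
  · simp [h]

theorem bal_start {d n : ℕ} : Bal (fun i _ => i : Cf d n) := by
  intro j
  rw [cn_start]
  simp

theorem finb_half (hU : S_UPO) (hL : S_LOW) (hT : S_TYP) (hCU : S_CTU) (hCL : S_CTL) (hPT : S_PTL)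
    (d : ℕ) (μ : Equiv.Perm (Fin d) → ℝ) (hd : 2 ≤ d) (hμ : Pr μ) (hI : Irr μ) (c : ℝ) (hc : 0 < c)
    (hc2 : c ≤ 1 / 2) :
    ∃ K κ : ℝ, 0 < K ∧ 0 < κ ∧ ∀ k : ℕ → ℕ,
      (∀ᶠ n : ℕ in atTop, c * n ≤ k n ∧ (k n : ℝ) ≤ (1 - c) * n) →
      ∀ π : ∀ n : ℕ, St d n → ℝ, (∀ n, Stationary μ (k n) (π n)) → ∀ ε : ℝ, 0 < ε → ε < 1 →
        (∀ᶠ n : ℕ in atTop, tmix μ (k n) (π n) ε ≤ K * Real.log n) ∧
        ((∀ᶠ n : ℕ in atTop, c * n ≤ |2 * (k n : ℝ) - n|) →
          ∀ᶠ n : ℕ in atTop, κ * Real.log n ≤ tmix μ (k n) (π n) ε) := by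
  obtain ⟨C, ρ, hC, hρ, hρ1, hM⟩ := hU d μ hμ hI c hc
  have hlρ : 0 < -Real.log ρ := by
    have := Real.log_neg hρ hρ1
    linarith
  obtain ⟨K0, hK0⟩ : ∃ K0, K0 = 2 / (-Real.log ρ) := ⟨_, rfl⟩
  have hK0p : 0 < K0 := by rw [hK0]; positivity
  have hlc : 0 < -Real.log c := by
    have := Real.log_neg hc (by linarith)
    linarith
  have hlcne : Real.log c ≠ 0 := by
    intro h
    rw [h] at hlc
    simp at hlc
  have hlρne : Real.log ρ ≠ 0 := by
    intro h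
    rw [h] at hlρ
    simp at hlρ
  obtain ⟨κ0, hκ0⟩ : ∃ κ0, κ0 = 1 / (4 * (-Real.log c)) := ⟨_, rfl⟩
  have hκ0p : 0 < κ0 := by rw [hκ0]; positivity
  refine ⟨4 * K0, κ0 / 4, by positivity, by positivity, ?_⟩
  intro k hk π hπ ε hε hε1
  have hlogn : Tendsto (fun n : ℕ => Real.log (n : ℝ)) atTop atTop :=
    Real.tendsto_log_atTop.comp tendsto_natCast_atTop_atTop
  -- upper bound
  have hup : ∀ᶠ n : ℕ in atTop, 0 ≤ 4 * K0 * Real.log n ∧
      dn μ (k n) (π n) (4 * K0 * Real.log n) ≤ ε := by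
    obtain ⟨X, hX, hP⟩ := hPT 1 (ε / 2) one_pos (by linarith)
    have e1 : ∀ᶠ n : ℕ in atTop, max X 1 ≤ K0 * Real.log n :=
      (hlogn.const_mul_atTop hK0p).eventually_ge_atTop _
    have e2 : ∀ᶠ n : ℕ in atTop, C / ε ≤ (n : ℝ) :=
      tendsto_natCast_atTop_atTop.eventually_ge_atTop _
    filter_upwards [hk, e1, e2, eventually_ge_atTop 1] with n hkn h1 h2 h3
    have hn : (1 : ℝ) ≤ n := by exact_mod_cast h3
    have hl0 : 0 ≤ Real.log n := Real.log_nonneg hn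
    have hkn' : k n ≤ n := by
      have : (k n : ℝ) ≤ n := by nlinarith [hkn.2]
      exact_mod_cast this
    have g0 : 0 ≤ 4 * K0 * Real.log n := by positivity
    refine ⟨g0, ?_⟩
    obtain ⟨N, hN⟩ : ∃ N, N = ⌈K0 * Real.log n⌉₊ := ⟨_, rfl⟩
    have hN1 : K0 * Real.log n ≤ N := by rw [hN]; exact Nat.le_ceil _
    have hN2 : (N : ℝ) ≤ K0 * Real.log n + 1 := by
      rw [hN]; exact (Nat.ceil_lt_add_one (by positivity)).le
    have hmix := hM n (k n) N h3 hkn.1 hkn.2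
    have g1 := hCU d n (k n) μ hμ hkn' N _ hmix (π n) (hπ n) _ g0
    have g2 := (hP (K0 * Real.log n + 1) (by linarith [le_max_left X 1]) N).1 hN2
      (4 * K0 * Real.log n) (by nlinarith [le_max_right X 1])
    have g3 : C * n * ρ ^ N ≤ ε := by
      have e3 : ρ ^ N = Real.exp (N * Real.log ρ) := by
        rw [Real.exp_nat_mul, Real.exp_log hρ]
      have e4 : (N : ℝ) * Real.log ρ ≤ -(2 * Real.log n) := by
        have e5 : K0 * Real.log n * (-Real.log ρ) ≤ N * (-Real.log ρ) :=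
          mul_le_mul_of_nonneg_right hN1 hlρ.le
        have e6 : K0 * Real.log n * (-Real.log ρ) = 2 * Real.log n := by
          rw [hK0]
          field_simp
        linarith
      have e7 : ρ ^ N ≤ 1 / (n : ℝ) ^ 2 := by
        rw [e3]
        refine (Real.exp_le_exp.2 e4).trans ?_
        rw [Real.exp_neg, two_mul, Real.exp_add, Real.exp_log (by linarith)]
        rw [one_div, sq]
      have e8 : C ≤ ε * n := by
        rw [div_le_iff₀ hε] at h2
        linarith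
      calc C * n * ρ ^ N ≤ C * n * (1 / (n : ℝ) ^ 2) :=
            mul_le_mul_of_nonneg_left e7 (by positivity)
        _ = C / n := by field_simp
        _ ≤ ε := by
            rw [div_le_iff₀ (by linarith)]
            exact e8
    linarith
  refine ⟨?_, ?_⟩
  · filter_upwards [hup] with n hn
    exact tmix_le _ _ _ _ _ hn.1 hn.2
  · intro hk2
    obtain ⟨δ, hδ⟩ : ∃ δ : ℝ, δ = 1 / 4 := ⟨_, rfl⟩
    have hδp : 0 < δ := by rw [hδ]; norm_num
    obtain ⟨η, hη⟩ : ∃ η : ℝ, η = (1 - ε) / 8 := ⟨_, rfl⟩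
    have hηp : 0 < η := by rw [hη]; linarith
    obtain ⟨K', hTY⟩ := hT d μ hd hμ hI c hc δ hδp η hηp
    have hLO := hL d μ hd hμ δ hδp η hηp κ0
    obtain ⟨X, hX, hP⟩ := hPT (1 / 2) η (by norm_num) hηp
    have e1 : ∀ᶠ n : ℕ in atTop, X + 2 ≤ κ0 * Real.log n :=
      (hlogn.const_mul_atTop hκ0p).eventually_ge_atTop _
    filter_upwards [hk, hk2, hup, hTY, hLO, e1, eventually_ge_atTop 1] with n hkn hkn2 hupn hTYn
      hLOn h1 h3
    have hn : (1 : ℝ) ≤ n := by exact_mod_cast h3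
    have hn0 : (0 : ℝ) < n := by linarith
    have hl0 : 0 ≤ Real.log n := Real.log_nonneg hn
    have hkn' : k n ≤ n := by
      have : (k n : ℝ) ≤ n := by nlinarith [hkn.2]
      exact_mod_cast this
    have hkr : (k n : ℝ) ≤ n := by exact_mod_cast hkn'
    have hl1 : (k n : ℝ) / n ≤ 1 := by rw [div_le_one hn0]; exact hkr
    have hl2 : c ≤ |1 - 2 * ((k n : ℝ) / n)| := by
      have e2 : 1 - 2 * ((k n : ℝ) / n) = -((2 * (k n : ℝ) - n) / n) := by
        field_simp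
        ring
      rw [e2, abs_neg, abs_div, abs_of_pos hn0, le_div_iff₀ hn0]
      exact hkn2
    -- small times
    have hsmall : ∀ N : ℕ, (N : ℝ) ≤ κ0 * Real.log n → PN μ n (k n) N
        (fun A => open Classical in
          if nf2 (fun i j => rl A i j - n / d) ≤ (n : ℝ) ^ (1 + δ) then 1 else 0)
        (cn (fun i _ => i : Cf d n)) ≤ 2 * η := by
      intro N hN
      rw [cn_start]
      apply hLOn (k n) hkn' N hN
      have e3 : EW μ N (fun w => if fw ((k n : ℝ) / n) w < (n : ℝ) ^ (-(1 / 2 : ℝ) + δ)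
          then 1 else 0) = EW μ N (fun _ => 0) := by
        apply EW_congr
        intro w hw
        rw [if_neg]
        rw [not_lt]
        have e4 := fw_ge hd ((k n : ℝ) / n) c (by positivity) hl1 hc.le hl2 w
        rw [hw] at e4
        refine le_trans ?_ e4
        have e5 : c ^ N = Real.exp (N * Real.log c) := by
          rw [Real.exp_nat_mul, Real.exp_log hc]
        rw [e5, Real.rpow_def_of_pos hn0, hδ, Real.exp_le_exp]
        have e6 : (N : ℝ) * (-Real.log c) ≤ κ0 * Real.log n * (-Real.log c) :=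
          mul_le_mul_of_nonneg_right hN hlc.le
        have e7 : κ0 * Real.log n * (-Real.log c) = Real.log n / 4 := by
          rw [hκ0]
          field_simp
        linarith
      rw [e3, EW_const hμ]
      exact hηp.le
    have hlarge := hTYn (k n) hkn.1 hkn.2 ⌈K' * Real.log n⌉₊ (Nat.le_ceil _)
    refine le_csInf (s := {t : ℝ | 0 ≤ t ∧ dn μ (k n) (π n) t ≤ ε}) ⟨_, hupn⟩ ?_
    rintro t ⟨ht, hdt⟩
    by_contra hlt
    push Not at hlt
    obtain ⟨M, hM'⟩ : ∃ M, M = ⌊κ0 * Real.log n⌋₊ := ⟨_, rfl⟩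
    have hM1 : (M : ℝ) ≤ κ0 * Real.log n := by rw [hM']; exact Nat.floor_le (by positivity)
    have hM2 : κ0 * Real.log n - 1 ≤ M := by
      rw [hM']
      have := Nat.lt_floor_add_one (κ0 * Real.log n)
      linarith
    have g1 := (hP (κ0 * Real.log n - 1) (by linarith) M).2 hM2 t ht (by nlinarith)
    have g2 := hCL d n (k n) μ hμ hkn' M ⌈K' * Real.log n⌉₊ (2 * η) η
      (fun A => open Classical in
          if nf2 (fun i j => rl A i j - n / d) ≤ (n : ℝ) ^ (1 + δ) then 1 else 0)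
      (fun i _ => i : Cf d n) bal_start (fun A => by
        split_ifs <;> norm_num) (fun N hN => hsmall N (by
          have : (N : ℝ) ≤ M := by exact_mod_cast hN
          linarith)) (fun c' hc' => hlarge c' hc') (π n) (hπ n) t ht
    linarith

theorem s_FINB (hU : S_UPO) (hL : S_LOW) (hT : S_TYP) (hCU : S_CTU) (hCL : S_CTL) (hPT : S_PTL) :
    S_FINB := by
  intro d μ hd hμ hI c hc
  obtain ⟨K, κ, hK, hκ, h⟩ := finb_half hU hL hT hCU hCL hPT d μ hd hμ hI (min c (1 / 2))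
    (lt_min hc (by norm_num)) (min_le_right _ _)
  refine ⟨K, κ, hK, hκ, ?_⟩
  intro k hk π hπ ε hε hε1
  have hm : min c (1 / 2) ≤ c := min_le_left _ _
  have h1 : ∀ᶠ n : ℕ in atTop, min c (1 / 2) * n ≤ k n ∧ (k n : ℝ) ≤ (1 - min c (1 / 2)) * n := by
    filter_upwards [hk] with n hn
    have h0 : (0 : ℝ) ≤ n := Nat.cast_nonneg n
    have := mul_le_mul_of_nonneg_right hm h0
    constructor
    · linarith [hn.1]
    · linarith [hn.2]
  refine ⟨(h k h1 π hπ ε hε hε1).1, fun h2 => (h k h1 π hπ ε hε hε1).2 ?_⟩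
  filter_upwards [h2] with n hn
  have h0 : (0 : ℝ) ≤ n := Nat.cast_nonneg n
  have := mul_le_mul_of_nonneg_right hm h0
  linarith

end Pool.Agent.L7h96.UC
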