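import Pool.Agent.L7h38.UC.Stm

/-! Project UC (MP_1e2081_pr, Q2): parts INV and NXC. -/

set_option autoImplicit false

namespace Pool.Agent.L7h96.UC

open Finset Pool.Agent.L7h38.UC

/-- two functions with fibres of the same sizes differ by a permutation -/
theorem perm_of_fibres {n d : ℕ} (f g : Fin n → Fin d) (h : ∀ j, #{p | f p = j} = #{p | g p = j}) :
    ∃ e : Equiv.Perm (Fin n), ∀ p, g (e p) = f p := by
  have hc : ∀ j, Fintype.card {p // f p = j} = Fintype.card {p // g p = j} := by
    intro j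
    rw [Fintype.card_subtype, Fintype.card_subtype]
    exact h j
  refine ⟨(Equiv.sigmaFiberEquiv f).symm.trans
    ((Equiv.sigmaCongrRight (fun j => Fintype.equivOfCardEq (hc j))).trans
      (Equiv.sigmaFiberEquiv g)), fun p => ?_⟩
  exact ((Fintype.equivOfCardEq (hc (f p))) ⟨p, rfl⟩).2

theorem mf_map {n d : ℕ} (f g : Fin n → Fin d) (e : Equiv.Perm (Fin n)) (h : ∀ p, g (e p) = f p)
    (T : Finset (Fin n)) : mf g (T.map e.toEmbedding) = mf f T := by
  funext j
  unfold mf
  rw [Finset.filter_map, Finset.card_map]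
  congr 3
  funext p
  simp only [Function.comp_apply, Equiv.coe_toEmbedding, h]

theorem s_INV : S_INV := by
  intro d n k σ F c c' hcc
  have h : ∀ i, ∃ e : Equiv.Perm (Fin n), ∀ p, c' i (e p) = c i p := by
    intro i
    apply perm_of_fibres
    intro j
    have := congrFun (congrFun hcc i) j
    unfold cn at this
    exact_mod_cast this
  choose e he using h
  unfold PL av
  congr 1
  refine Finset.sum_equiv (Equiv.piCongrRight (fun i => Equiv.finsetCongr (e i))) ?_ ?_
  · intro S
    unfold Ch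
    rw [Fintype.mem_piFinset, Fintype.mem_piFinset]
    refine forall_congr' fun i => ?_
    rw [Finset.mem_powersetCard, Finset.mem_powersetCard]
    simp only [Finset.subset_univ, true_and, Equiv.piCongrRight_apply, Pi.map_apply,
      Equiv.finsetCongr_apply, Finset.card_map]
  · intro S _
    congr 1
    funext i j
    have hm : ∀ i, mf (c' i) ((Equiv.piCongrRight (fun i => Equiv.finsetCongr (e i))) S i) =
        mf (c i) (S i) := fun i => mf_map (c i) (c' i) (e i) (he i) (S i)
    unfold nx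
    rw [hm, hm, hcc]

theorem mf_add_compl {n d : ℕ} (f : Fin n → Fin d) (T : Finset (Fin n)) (j : Fin d) :
    mf f T j + mf f Tᶜ j = mf f univ j := by
  unfold mf
  rw [← Finset.union_compl T, Finset.filter_union, Finset.card_union_of_disjoint]
  · push_cast
    rfl
  · exact Finset.disjoint_filter_filter disjoint_compl_right

theorem cn_eq {n d : ℕ} (c : Cf d n) (i j : Fin d) : cn c i j = mf (c i) univ j := rfl

theorem s_NXC : S_NXC := by
  classical
  intro d n k σ c S hS
  have hk : ∀ i, #(S i) = k := by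
    intro i
    exact (Finset.mem_powersetCard.1 (Fintype.mem_piFinset.1 hS i)).2
  have he : ∀ i, ∃ e : S i ≃ S (σ⁻¹ i), True := by
    intro i
    refine ⟨Fintype.equivOfCardEq ?_, trivial⟩
    rw [Fintype.card_coe, Fintype.card_coe, hk, hk]
  choose e _ using he
  let c' : Cf d n := fun i p => if h : p ∈ S i then c (σ⁻¹ i) (e i ⟨p, h⟩) else c i p
  have h1 : ∀ i j, mf (c' i) (S i) j = mf (c (σ⁻¹ i)) (S (σ⁻¹ i)) j := by
    intro i j
    unfold mf
    congr 1
    refine Finset.card_bij (fun p hp => ((e i ⟨p, (Finset.mem_filter.1 hp).1⟩ : S (σ⁻¹ i)) : Fin n))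
      ?_ ?_ ?_
    · intro p hp
      obtain ⟨hp1, hp2⟩ := Finset.mem_filter.1 hp
      refine Finset.mem_filter.2 ⟨(e i ⟨p, hp1⟩).2, ?_⟩
      have : c' i p = c (σ⁻¹ i) (e i ⟨p, hp1⟩) := dif_pos hp1
      rw [← this]
      exact hp2
    · intro p hp p' hp' hpp
      have := (e i).injective (Subtype.ext hpp)
      exact congrArg Subtype.val this
    · intro y hy
      obtain ⟨hy1, hy2⟩ := Finset.mem_filter.1 hy
      have hx := ((e i).symm ⟨y, hy1⟩).2
      refine ⟨((e i).symm ⟨y, hy1⟩ : S i), Finset.mem_filter.2 ⟨hx, ?_⟩, ?_⟩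
      · have : c' i ((e i).symm ⟨y, hy1⟩ : S i) = c (σ⁻¹ i) (e i ⟨_, hx⟩) := dif_pos hx
        rw [this, ← hy2]
        congr 1
        simp
      · simp
  have h2 : ∀ i j, mf (c' i) (S i)ᶜ j = mf (c i) (S i)ᶜ j := by
    intro i j
    unfold mf
    congr 2
    apply Finset.filter_congr
    intro p hp
    have : c' i p = c i p := dif_neg (Finset.mem_compl.1 hp)
    rw [this]
  have hcn : cn c' = nx σ c S := by
    funext i j
    have a1 := mf_add_compl (c' i) (S i) j
    have a2 := mf_add_compl (c i) (S i) j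
    unfold nx
    rw [cn_eq, cn_eq, ← a1, ← a2, h1, h2]
    ring
  refine ⟨c', hcn, ?_⟩
  intro hB j
  rw [hcn]
  unfold nx
  rw [Finset.sum_add_distrib, Finset.sum_sub_distrib, hB j]
  have : ∑ i, mf (c (σ⁻¹ i)) (S (σ⁻¹ i)) j = ∑ i, mf (c i) (S i) j :=
    Equiv.sum_comp (σ⁻¹ : Equiv.Perm (Fin d)) (fun i => mf (c i) (S i) j)
  rw [this]
  ring

end Pool.Agent.L7h96.UC
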