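import Pool.Agent.L7h96.UC.Inv

/-! Project UC (MP_1e2081_pr, Q2): part PWB. -/

set_option autoImplicit false

namespace Pool.Agent.L7h96.UC

open Finset Pool.Agent.L7h38.UC

theorem PM_cn {d n : ℕ} (hI : S_INV) (k : ℕ) (σ : Equiv.Perm (Fin d)) (F : Mt d → ℝ) (c : Cf d n) :
    PM n k σ F (cn c) = PL k σ F c := by
  have h : ∃ c' : Cf d n, cn c' = cn c := ⟨c, rfl⟩
  unfold PM
  rw [dif_pos h]
  exact hI d n k σ F _ _ h.choose_spec

theorem Ch_nonempty {d n k : ℕ} (hk : k ≤ n) : (Ch d n k).Nonempty := by
  obtain ⟨T, hT⟩ : (powersetCard k (univ : Finset (Fin n))).Nonempty := by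
    rw [Finset.powersetCard_nonempty, Finset.card_univ, Fintype.card_fin]
    exact hk
  exact ⟨fun _ => T, Fintype.mem_piFinset.2 fun _ => hT⟩

theorem av_mono {ι : Type} (s : Finset ι) (g h : ι → ℝ) (hgh : ∀ x ∈ s, g x ≤ h x) :
    av s g ≤ av s h := by
  unfold av
  exact div_le_div_of_nonneg_right (Finset.sum_le_sum hgh) (Nat.cast_nonneg _)

theorem av_const {ι : Type} (s : Finset ι) (hs : s.Nonempty) (x : ℝ) : av s (fun _ => x) = x := by
  unfold av
  rw [Finset.sum_const, nsmul_eq_mul, mul_div_cancel_left₀]
  exact Nat.cast_ne_zero.2 (Finset.card_pos.2 hs).ne'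

theorem av_abs {ι : Type} (s : Finset ι) (g : ι → ℝ) (x : ℝ) (hx : 0 ≤ x)
    (h : ∀ y ∈ s, |g y| ≤ x) : |av s g| ≤ x := by
  unfold av
  rcases s.eq_empty_or_nonempty with rfl | hs
  · simpa using hx
  · have hc : (0 : ℝ) < #s := Nat.cast_pos.2 (Finset.card_pos.2 hs)
    rw [abs_div, abs_of_pos hc, div_le_iff₀ hc]
    refine (Finset.abs_sum_le_sum_abs _ _).trans ?_
    refine (Finset.sum_le_card_nsmul s _ x h).trans ?_
    rw [nsmul_eq_mul, mul_comm]

theorem av_lin {ι : Type} (s : Finset ι) (g h : ι → ℝ) (x y : ℝ) :
    av s (fun z => x * g z + y * h z) = x * av s g + y * av s h := by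
  unfold av
  rw [Finset.sum_add_distrib, ← Finset.mul_sum, ← Finset.mul_sum]
  ring

theorem s_PWB (hI : S_INV) (hN : S_NXC) : S_PWB := by
  refine ⟨?_, ?_, ?_, ?_, ?_⟩
  · intro d n k hk w
    induction w with
    | nil => intro F G h c hc; exact h c hc
    | cons σ w ih =>
      intro F G h c hc
      show PM n k σ (PW n k w F) (cn c) ≤ PM n k σ (PW n k w G) (cn c)
      rw [PM_cn hI, PM_cn hI]
      unfold PL
      apply av_mono
      intro S hS
      obtain ⟨c', hc', hb⟩ := hN d n k σ c S hS
      rw [← hc']
      exact ih F G h c' (hb hc)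
  · intro d n k w
    induction w with
    | nil => intro F G x y A; rfl
    | cons σ w ih =>
      intro F G x y A
      have e : PW n k w (fun B => x * F B + y * G B) =
          fun B => x * PW n k w F B + y * PW n k w G B := by
        funext B
        exact ih F G x y B
      show PM n k σ (PW n k w _) A = x * PM n k σ (PW n k w F) A + y * PM n k σ (PW n k w G) A
      rw [e]
      unfold PM
      by_cases h : ∃ c : Cf d n, cn c = A
      · rw [dif_pos h, dif_pos h, dif_pos h]
        unfold PL
        exact av_lin _ _ _ x y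
      · rw [dif_neg h, dif_neg h, dif_neg h]
        ring
  · intro d n k hk w
    induction w with
    | nil => intro x c; rfl
    | cons σ w ih =>
      intro x c
      show PM n k σ (PW n k w _) (cn c) = x
      rw [PM_cn hI]
      unfold PL
      have e : av (Ch d n k) (fun S => PW n k w (fun _ => x) (nx σ c S)) =
          av (Ch d n k) (fun _ => x) := by
        unfold av
        congr 1
        apply Finset.sum_congr rfl
        intro S hS
        obtain ⟨c', hc', -⟩ := hN d n k σ c S hS
        show PW n k w (fun _ => x) (nx σ c S) = x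
        rw [← hc']
        exact ih x c'
      rw [e, av_const _ (Ch_nonempty hk)]
  · intro d n k w
    induction w with
    | nil => intro F x h A; exact h A
    | cons σ w ih =>
      intro F x h A
      have hx : 0 ≤ x := (abs_nonneg _).trans (h A)
      show |PM n k σ (PW n k w F) A| ≤ x
      unfold PM
      by_cases h' : ∃ c : Cf d n, cn c = A
      · rw [dif_pos h']
        unfold PL
        exact av_abs _ _ x hx (fun S _ => ih F x h _)
      · rw [dif_neg h', abs_zero]
        exact hx
  · intro d n k v
    induction v with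
    | nil => intro w F A; rfl
    | cons σ v ih =>
      intro w F A
      have e : PW n k (v ++ w) F = PW n k v (PW n k w F) := funext fun B => ih w F B
      show PM n k σ (PW n k (v ++ w) F) A = PM n k σ (PW n k v (PW n k w F)) A
      rw [e]

end Pool.Agent.L7h96.UC
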