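import Pool.Agent.L7h96.UC.Swp
import Pool.Agent.L7h96.UC.Pwb

/-! Project UC (MP_1e2081_pr, Q2): part TRA. -/

set_option autoImplicit false

namespace Pool.Agent.L7h96.UC

open Finset Pool.Agent.L7h38.UC

theorem av_sub {ι : Type} (s : Finset ι) (g h : ι → ℝ) :
    av s g - av s h = av s (fun z => g z - h z) := by
  unfold av
  rw [Finset.sum_sub_distrib]
  ring

theorem av_neg {ι : Type} (s : Finset ι) (g : ι → ℝ) : av s (fun z => - g z) = - av s g := by
  unfold av
  rw [Finset.sum_neg_distrib]
  ring

/-- the matrix after the ring as a function of the choice in urn `i` -/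
theorem nx_update {d n : ℕ} (σ : Equiv.Perm (Fin d)) (c : Cf d n) (S : Fin d → Finset (Fin n))
    (i : Fin d) (T : Finset (Fin n)) (x j : Fin d) :
    nx σ c (Function.update S i T) x j = nx σ c (Function.update S i ∅) x j +
      ((if x = σ i then 1 else 0) - (if x = i then 1 else 0)) * mf (c i) T j := by
  have h0 : mf (c i) ∅ j = 0 := by
    unfold mf
    simp
  have e1 : (σ⁻¹ x = i) ↔ (x = σ i) := by
    constructor
    · rintro rfl; simp
    · rintro rfl; simp
  unfold nx
  have a1 : mf (c x) (Function.update S i T x) j = mf (c x) (Function.update S i ∅ x) j +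
      (if x = i then 1 else 0) * mf (c i) T j := by
    by_cases h : x = i
    · subst h
      rw [Function.update_self, Function.update_self, h0, if_pos rfl]
      ring
    · rw [Function.update_of_ne h, Function.update_of_ne h, if_neg h]
      ring
  have a2 : mf (c (σ⁻¹ x)) (Function.update S i T (σ⁻¹ x)) j =
      mf (c (σ⁻¹ x)) (Function.update S i ∅ (σ⁻¹ x)) j +
      (if x = σ i then 1 else 0) * mf (c i) T j := by
    by_cases h : x = σ i
    · rw [if_pos h, e1.2 h, Function.update_self, Function.update_self, h0]
      ring
    · rw [if_neg h, Function.update_of_ne (fun hh => h (e1.1 hh)),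
        Function.update_of_ne (fun hh => h (e1.1 hh))]
      ring
  rw [a1, a2]
  ring

/-- replacement of the location of one ball by a fixed one -/
theorem one_end {c0 C : ℝ} (hE : ∀ (d n k : ℕ) (f : Fin n → Fin d) (a b : Fin d)
    (p : Fin n) (K : (Fin d → ℤ) → ℝ), a ≠ b → (∀ m, |K m| ≤ 1) → c0 * n ≤ k → k ≤ (1 - c0) * n →
    c0 * n ≤ (#{x | f x = a} : ℕ) → c0 * n ≤ (#{x | f x = b} : ℕ) →
    |av (powersetCard k univ) (fun T => if p ∈ T then
      K (fun j => mf f T j + ((if j = a then 1 else 0) - (if j = b then 1 else 0))) -
        K (mf f T) else 0)| ≤ C / Real.sqrt n ∧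
    |av (powersetCard k univ) (fun T => if p ∈ T then 0 else
      K (fun j => mf f T j + ((if j = a then 1 else 0) - (if j = b then 1 else 0))) -
        K (mf f T))| ≤ C / Real.sqrt n)
    (hR : S_RES) (d n k : ℕ) (hk : k ≤ n) (σ : Equiv.Perm (Fin d)) (c : Cf d n) (i a b : Fin d)
    (p : Fin n) (hab : a ≠ b) (h1 : c0 * n ≤ k) (h2 : k ≤ (1 - c0) * n)
    (h3 : ∀ x y, c0 * n ≤ (cn c x y : ℝ)) (hC : 0 ≤ C / Real.sqrt n)
    (D : (Fin d → Finset (Fin n)) → ℝ)
    (hD : ∀ S ∈ Ch d n k, ∃ K : (Fin d → ℤ) → ℝ, (∀ m, |K m| ≤ 1) ∧
      ((∀ T, D (Function.update S i T) = if p ∈ T then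
        K (fun j => mf (c i) T j + ((if j = a then 1 else 0) - (if j = b then 1 else 0))) -
          K (mf (c i) T) else 0) ∨
       (∀ T, D (Function.update S i T) = - (if p ∈ T then
        K (fun j => mf (c i) T j + ((if j = a then 1 else 0) - (if j = b then 1 else 0))) -
          K (mf (c i) T) else 0)) ∨
       (∀ T, D (Function.update S i T) = if p ∈ T then 0 else
        K (fun j => mf (c i) T j + ((if j = a then 1 else 0) - (if j = b then 1 else 0))) -
          K (mf (c i) T)) ∨
       (∀ T, D (Function.update S i T) = - (if p ∈ T then 0 else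
        K (fun j => mf (c i) T j + ((if j = a then 1 else 0) - (if j = b then 1 else 0))) -
          K (mf (c i) T))))) :
    |av (Ch d n k) D| ≤ C / Real.sqrt n := by
  rw [hR d n k hk i D]
  apply av_abs _ _ _ hC
  intro S hS
  obtain ⟨K, hK, hcase⟩ := hD S hS
  have ha : c0 * n ≤ (#{x | c i x = a} : ℕ) := by
    have := h3 i a
    unfold cn at this
    exact_mod_cast this
  have hb : c0 * n ≤ (#{x | c i x = b} : ℕ) := by
    have := h3 i b
    unfold cn at this
    exact_mod_cast this
  obtain ⟨E1, E2⟩ := hE d n k (c i) a b p K hab hK h1 h2 ha hb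
  rcases hcase with h | h | h | h
  · simp only [h]
    exact E1
  · simp only [h]
    rw [av_neg, abs_neg]
    exact E1
  · simp only [h]
    exact E2
  · simp only [h]
    rw [av_neg, abs_neg]
    exact E2

theorem s_TRA (hR : S_RES) (hX : S_EXC) (hW : S_SWP) : S_TRA := by
  intro c0 hc0
  obtain ⟨C, hC, hE⟩ := hX c0 hc0
  refine ⟨2 * C, by positivity, ?_⟩
  intro d n k σ c c' i i' a b e e' F hi hab hc hF h1 h2 h3 he he'
  have hCn : 0 ≤ C / Real.sqrt n := div_nonneg hC.le (Real.sqrt_nonneg _)
  have hk : k ≤ n := by
    have : (k : ℝ) ≤ n := by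
      refine h2.trans ?_
      have : (0 : ℝ) ≤ c0 * n := by positivity
      linarith
    exact_mod_cast this
  obtain ⟨p, p', hp, hp', hPL⟩ := hW d n c c' i i' a b hi hab hc
  rw [hPL k σ F]
  have hmid : |av (Ch d n k) (fun S => F (shift (nx σ c S) a b
        (if p ∈ S i then σ i else i) (if p' ∈ S i' then σ i' else i'))) -
      av (Ch d n k) (fun S => F (shift (nx σ c S) a b e (if p' ∈ S i' then σ i' else i')))| ≤
      C / Real.sqrt n := by
    rw [av_sub]
    apply one_end hE hR d n k hk σ c i a b p hab h1 h2 h3 hCn
    intro S _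
    obtain ⟨y, hy⟩ : ∃ y, y = (if p' ∈ S i' then σ i' else i') := ⟨_, rfl⟩
    obtain ⟨R, hRd⟩ : ∃ R, R = nx σ c (Function.update S i ∅) := ⟨_, rfl⟩
    refine ⟨fun m => F (fun x j => R x j +
      ((if x = σ i then 1 else 0) - (if x = i then 1 else 0)) * m j -
      ((if j = a then 1 else 0) - (if j = b then 1 else 0)) *
        ((if x = σ i then 1 else 0) - (if x = y then 1 else 0))), fun m => hF _, ?_⟩
    have k1 : ∀ T, shift (nx σ c (Function.update S i T)) a b (σ i) y = fun x j => R x j +
        ((if x = σ i then 1 else 0) - (if x = i then 1 else 0)) * mf (c i) T j -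
        ((if j = a then 1 else 0) - (if j = b then 1 else 0)) *
        ((if x = σ i then 1 else 0) - (if x = y then 1 else 0)) := by
      intro T
      funext x j
      unfold shift
      rw [nx_update, hRd]
    have k2 : ∀ T, shift (nx σ c (Function.update S i T)) a b i y = fun x j => R x j +
        ((if x = σ i then 1 else 0) - (if x = i then 1 else 0)) *
          (mf (c i) T j + ((if j = a then 1 else 0) - (if j = b then 1 else 0))) -
        ((if j = a then 1 else 0) - (if j = b then 1 else 0)) *
        ((if x = σ i then 1 else 0) - (if x = y then 1 else 0)) := by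
      intro T
      funext x j
      unfold shift
      rw [nx_update, hRd]
      ring
    have hu : ∀ T, (if p' ∈ (Function.update S i T) i' then σ i' else i') = y := by
      intro T
      rw [Function.update_of_ne (Ne.symm hi), hy]
    have hu2 : ∀ T, (Function.update S i T) i = T := fun T => Function.update_self _ _ _
    rcases he with rfl | rfl
    · right; left
      intro T
      simp only [hu, hu2]
      by_cases hT : p ∈ T
      · simp only [if_pos hT, k1, k2]
        ring
      · simp only [if_neg hT]
        ring
    · right; right; left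
      intro T
      simp only [hu, hu2]
      by_cases hT : p ∈ T
      · simp only [if_pos hT]
        ring
      · simp only [if_neg hT, k1, k2]
  have hend : |av (Ch d n k) (fun S => F (shift (nx σ c S) a b e (if p' ∈ S i' then σ i' else i'))) -
      av (Ch d n k) (fun S => F (shift (nx σ c S) a b e e'))| ≤ C / Real.sqrt n := by
    rw [av_sub]
    apply one_end hE hR d n k hk σ c i' a b p' hab h1 h2 h3 hCn
    intro S _
    obtain ⟨R, hRd⟩ : ∃ R, R = nx σ c (Function.update S i' ∅) := ⟨_, rfl⟩
    refine ⟨fun m => F (fun x j => R x j +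
      ((if x = σ i' then 1 else 0) - (if x = i' then 1 else 0)) * m j -
      ((if j = a then 1 else 0) - (if j = b then 1 else 0)) *
        ((if x = e then 1 else 0) - (if x = i' then 1 else 0))), fun m => hF _, ?_⟩
    have k1 : ∀ T, shift (nx σ c (Function.update S i' T)) a b e i' = fun x j => R x j +
        ((if x = σ i' then 1 else 0) - (if x = i' then 1 else 0)) * mf (c i') T j -
        ((if j = a then 1 else 0) - (if j = b then 1 else 0)) *
        ((if x = e then 1 else 0) - (if x = i' then 1 else 0)) := by
      intro T
      funext x j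
      unfold shift
      rw [nx_update, hRd]
    have k2 : ∀ T, shift (nx σ c (Function.update S i' T)) a b e (σ i') = fun x j => R x j +
        ((if x = σ i' then 1 else 0) - (if x = i' then 1 else 0)) *
          (mf (c i') T j + ((if j = a then 1 else 0) - (if j = b then 1 else 0))) -
        ((if j = a then 1 else 0) - (if j = b then 1 else 0)) *
        ((if x = e then 1 else 0) - (if x = i' then 1 else 0)) := by
      intro T
      funext x j
      unfold shift
      rw [nx_update, hRd]
      ring
    have hu2 : ∀ T, (Function.update S i' T) i' = T := fun T => Function.update_self _ _ _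
    rcases he' with rfl | rfl
    · left
      intro T
      simp only [hu2]
      by_cases hT : p' ∈ T
      · simp only [if_pos hT, k1, k2]
      · simp only [if_neg hT]
        ring
    · right; right; right
      intro T
      simp only [hu2]
      by_cases hT : p' ∈ T
      · simp only [if_pos hT]
        ring
      · simp only [if_neg hT, k1, k2]
        ring
  have hfin : av (Ch d n k) (fun S => F (shift (nx σ c S) a b
        (if p ∈ S i then σ i else i) (if p' ∈ S i' then σ i' else i'))) -
      PL k σ (fun B => F (shift B a b e e')) c =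
      (av (Ch d n k) (fun S => F (shift (nx σ c S) a b
        (if p ∈ S i then σ i else i) (if p' ∈ S i' then σ i' else i'))) -
      av (Ch d n k) (fun S => F (shift (nx σ c S) a b e (if p' ∈ S i' then σ i' else i')))) +
      (av (Ch d n k) (fun S => F (shift (nx σ c S) a b e (if p' ∈ S i' then σ i' else i'))) -
      av (Ch d n k) (fun S => F (shift (nx σ c S) a b e e'))) := by
    unfold PL
    ring
  rw [hfin]
  refine (abs_add_le _ _).trans ?_
  have : 2 * C / Real.sqrt n = C / Real.sqrt n + C / Real.sqrt n := by ring
  rw [this]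
  exact add_le_add hmid hend

end Pool.Agent.L7h96.UC
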